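import Pool.Agent.H51.MO.TargetsA

/-!
# Row A_ENC of the board `mo_modules`: the CNF of a system of equations
-/

set_option autoImplicit false

namespace Pool.Agent.H21.MO

open Finset Pool.Agent.H51.MO
open Pool.Agent.H1.LP (Clause viol)

theorem sg_cases (c : Bool) : sg c = 1 ∨ sg c = -1 := by
  cases c <;> simp [sg]

theorem sg_inj {c d : Bool} (h : sg c = sg d) : c = d := by
  cases c <;> cases d <;> first | rfl | (exfalso; norm_num [sg] at h)

theorem prod_sg {k : ℕ} (a : Fin k → Bool) : ∏ l, sg (a l) = 1 ∨ ∏ l, sg (a l) = -1 := by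
  refine Finset.prod_induction _ (fun r : ℝ => r = 1 ∨ r = -1) ?_ (Or.inl rfl)
    (fun l _ => sg_cases _)
  rintro x y (rfl | rfl) (rfl | rfl) <;> simp

/-- the number of a variable -/
def vr {n k b : ℕ} (h : k * b ≤ n) (l : Fin k) (i : Fin b) : Fin n :=
  Fin.castLE h (finProdFinEquiv (l, i))

theorem vr_inj {n k b : ℕ} (h : k * b ≤ n) {l l' : Fin k} {i i' : Fin b}
    (he : vr h l i = vr h l' i') : l = l' ∧ i = i' := by
  have h1 := finProdFinEquiv.injective (Fin.castLE_injective h he)
  exact ⟨(Prod.ext_iff.1 h1).1, (Prod.ext_iff.1 h1).2⟩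

/-- the assignment of a point -/
def asg {k b : ℕ} (n : ℕ) (x : Pt k b) : Fin n → Bool := fun v =>
  if hv : v.1 < k * b then
    x (finProdFinEquiv.symm ⟨v.1, hv⟩).1 (finProdFinEquiv.symm ⟨v.1, hv⟩).2
  else false

theorem asg_vr {n k b : ℕ} (h : k * b ≤ n) (x : Pt k b) (l : Fin k) (i : Fin b) :
    asg n x (vr h l i) = x l i := by
  unfold asg
  have hv : (vr h l i).1 < k * b := (finProdFinEquiv (l, i)).2
  rw [dif_pos hv]
  have h1 : (⟨(vr h l i).1, hv⟩ : Fin (k * b)) = finProdFinEquiv (l, i) := rfl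
  rw [h1, Equiv.symm_apply_apply]

/-- the point of an assignment -/
def dec {n k b : ℕ} (h : k * b ≤ n) (z : Fin n → Bool) : Pt k b := fun l i => z (vr h l i)

theorem dec_asg {n k b : ℕ} (h : k * b ≤ n) (x : Pt k b) : dec h (asg n x) = x := by
  funext l i
  exact asg_vr h x l i

/-- the clause which excludes the pattern `a` on the variables `S` -/
def cl {n k b : ℕ} (h : k * b ≤ n) (S : Fin k → Fin b) (a : Fin k → Bool) : Clause n :=
  univ.image (fun l => (vr h l (S l), !(a l)))

theorem cl_card {n k b : ℕ} (h : k * b ≤ n) (S : Fin k → Fin b) (a : Fin k → Bool) :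
    (cl h S a).card = k := by
  unfold cl
  rw [Finset.card_image_of_injective, Finset.card_univ, Fintype.card_fin]
  intro l l' he
  exact (vr_inj h (Prod.ext_iff.1 he).1).1

theorem cl_card' {n k b : ℕ} (h : k * b ≤ n) (S : Fin k → Fin b) (a : Fin k → Bool) :
    ((cl h S a).image Prod.fst).card = k := by
  unfold cl
  rw [Finset.image_image, Finset.card_image_of_injective, Finset.card_univ, Fintype.card_fin]
  intro l l' he
  exact (vr_inj h he).1

theorem cl_unsat {n k b : ℕ} (h : k * b ≤ n) (S : Fin k → Fin b) (a : Fin k → Bool)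
    (z : Fin n → Bool) : ¬ (cl h S a).Sat z ↔ (fun l => dec h z l (S l)) = a := by
  unfold Clause.Sat cl
  constructor
  · intro h1
    funext l
    by_contra h2
    refine h1 ⟨(vr h l (S l), !(a l)), Finset.mem_image_of_mem _ (Finset.mem_univ l), ?_⟩
    show z (vr h l (S l)) = !(a l)
    have h3 : z (vr h l (S l)) ≠ a l := h2
    revert h3
    cases z (vr h l (S l)) <;> cases a l <;> simp
  · rintro rfl ⟨p, hp, h1⟩
    obtain ⟨l, -, rfl⟩ := Finset.mem_image.1 hp
    have h2 : z (vr h l (S l)) = !(z (vr h l (S l))) := h1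
    revert h2
    cases z (vr h l (S l)) <;> simp

theorem cl_inj {n k b : ℕ} (h : k * b ≤ n) {S S' : Fin k → Fin b} {a a' : Fin k → Bool}
    (he : cl h S a = cl h S' a') : S = S' ∧ a = a' := by
  have h1 : ∀ l, S l = S' l ∧ a l = a' l := by
    intro l
    have h2 : (vr h l (S l), !(a l)) ∈ cl h S' a' := by
      rw [← he]
      exact Finset.mem_image_of_mem _ (Finset.mem_univ l)
    obtain ⟨l', -, h3⟩ := Finset.mem_image.1 h2
    have h4 := Prod.ext_iff.1 h3
    obtain ⟨rfl, h5⟩ := vr_inj h h4.1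
    refine ⟨h5.symm, ?_⟩
    have h6 : (!(a' l')) = !(a l') := h4.2
    revert h6
    cases a' l' <;> cases a l' <;> simp
  exact ⟨funext fun l => (h1 l).1, funext fun l => (h1 l).2⟩

/-- patterns which violate the equation with right hand side `c` -/
abbrev Pa (k : ℕ) (c : Bool) : Type := {a : Fin k → Bool // sg c * ∏ l, sg (a l) = -1}

open Classical in
theorem card_pa (k : ℕ) (c : Bool) : Fintype.card (Pa (k + 1) c) = 2 ^ k := by
  have h1 : Function.Bijective (fun a : Pa (k + 1) c => Fin.tail a.1) := by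
    constructor
    · rintro ⟨a, ha⟩ ⟨a', ha'⟩ he
      have h2 : Fin.tail a = Fin.tail a' := he
      have h3 : a 0 = a' 0 := by
        apply sg_inj
        rw [Fin.prod_univ_succ] at ha ha'
        have h4 : (∏ i : Fin k, sg (a i.succ)) = ∏ i : Fin k, sg (a' i.succ) :=
          Finset.prod_congr rfl fun i _ => congrArg sg (congrFun h2 i)
        rw [h4] at ha
        rcases sg_cases c with h5 | h5 <;>
          rcases prod_sg (fun i : Fin k => a' i.succ) with h6 | h6 <;>
          rw [h5, h6] at ha ha' <;> linarith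
      apply Subtype.ext
      show a = a'
      rw [← Fin.cons_self_tail a, ← Fin.cons_self_tail a', h2, h3]
    · intro r
      have h2 : ∃ a0 : Bool, sg c * (sg a0 * ∏ l, sg (r l)) = -1 := by
        rcases sg_cases c with h5 | h5 <;> rcases prod_sg r with h6 | h6 <;> rw [h5, h6]
        · exact ⟨false, by simp [sg]⟩
        · exact ⟨true, by simp [sg]⟩
        · exact ⟨true, by simp [sg]⟩
        · exact ⟨false, by simp [sg]⟩
      obtain ⟨a0, h3⟩ := h2
      refine ⟨⟨Fin.cons a0 r, ?_⟩, ?_⟩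
      · rw [Fin.prod_univ_succ]
        simpa using h3
      · exact Fin.tail_cons _ _
  rw [Fintype.card_of_bijective h1]
  simp

theorem exists_equiv (k : ℕ) (hk : 1 ≤ k) (c : Bool) : Nonempty (Fin (2 ^ (k - 1)) ≃ Pa k c) := by
  classical
  obtain ⟨k, rfl⟩ : ∃ k', k = k' + 1 := ⟨k - 1, by omega⟩
  refine ⟨(Fintype.equivFinOfCardEq ?_).symm⟩
  rw [card_pa]
  simp

/-- the formula -/
def phi {n k b m : ℕ} (h : k * b ≤ n) (e : (c : Bool) → Fin (2 ^ (k - 1)) ≃ Pa k c)
    (F : Fin m → Om k b) (i : Fin (m * 2 ^ (k - 1))) : Clause n :=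
  cl h (F (finProdFinEquiv.symm i).1).1
    (e (F (finProdFinEquiv.symm i).1).2 (finProdFinEquiv.symm i).2).1

theorem viol_phi {n k b m : ℕ} (h : k * b ≤ n) (e : (c : Bool) → Fin (2 ^ (k - 1)) ≃ Pa k c)
    (F : Fin m → Om k b) (z : Fin n → Bool) [DecidablePred (fun u => ys (F u) (dec h z) = -1)] :
    viol (phi h e F) z = (univ.filter (fun u => ys (F u) (dec h z) = -1)).card := by
  classical
  unfold viol
  refine Finset.card_bij (fun i _ => (finProdFinEquiv.symm i).1) ?_ ?_ ?_
  · intro i hi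
    have h1 := (Finset.mem_filter.1 hi).2
    unfold phi at h1
    rw [cl_unsat] at h1
    refine Finset.mem_filter.2 ⟨Finset.mem_univ _, ?_⟩
    have h2 := (e (F (finProdFinEquiv.symm i).1).2 (finProdFinEquiv.symm i).2).2
    rw [← h1] at h2
    exact h2
  · intro i hi j hj hij
    have h1 := (Finset.mem_filter.1 hi).2
    have h2 := (Finset.mem_filter.1 hj).2
    unfold phi at h1 h2
    rw [cl_unsat] at h1 h2
    have h3 : (finProdFinEquiv.symm i).1 = (finProdFinEquiv.symm j).1 := hij
    rw [← h3] at h2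
    have h4 := (e _).injective (Subtype.ext (h1.symm.trans h2))
    exact finProdFinEquiv.symm.injective (Prod.ext h3 h4)
  · intro u hu
    have h1 : ys (F u) (dec h z) = -1 := (Finset.mem_filter.1 hu).2
    refine ⟨finProdFinEquiv (u, (e (F u).2).symm ⟨fun l => dec h z l ((F u).1 l), h1⟩), ?_, ?_⟩
    · refine Finset.mem_filter.2 ⟨Finset.mem_univ _, ?_⟩
      unfold phi
      rw [cl_unsat, Equiv.symm_apply_apply]
      show _ = ((e (F u).2) ((e (F u).2).symm ⟨fun l => dec h z l ((F u).1 l), h1⟩)).1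
      rw [Equiv.apply_symm_apply]
    · rw [Equiv.symm_apply_apply]

theorem pf_AENC : S_AENC := by
  classical
  intro n k b m hk h
  have e : (c : Bool) → Fin (2 ^ (k - 1)) ≃ Pa k c := fun c => (exists_equiv k hk c).some
  refine ⟨asg n, dec h, univ.image (fun p : (Fin k → Fin b) × (Fin k → Bool) => cl h p.1 p.2),
    phi h e, ?_, ?_, ?_, ?_⟩
  · intro C hC
    obtain ⟨p, -, rfl⟩ := Finset.mem_image.1 hC
    exact ⟨cl_card h _ _, cl_card' h _ _⟩
  · intro F i
    exact Finset.mem_image.2 ⟨(_, _), Finset.mem_univ _, rfl⟩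
  · intro C hC
    obtain ⟨⟨S, a⟩, -, rfl⟩ := Finset.mem_image.1 hC
    have h2 : ∃ c : Bool, sg c * ∏ l, sg (a l) = -1 := by
      rcases prod_sg a with h6 | h6 <;> rw [h6]
      · exact ⟨false, by simp [sg]⟩
      · exact ⟨true, by simp [sg]⟩
    obtain ⟨c, hc⟩ := h2
    refine ⟨(S, c), ?_, ?_⟩
    · intro x hx
      have h3 := (cl_unsat h S a (asg n x)).1 hx
      rw [dec_asg] at h3
      rw [← h3] at hc
      exact hc
    · rintro F ⟨i, hi⟩
      unfold phi at hi
      obtain ⟨h3, h4⟩ := cl_inj h hi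
      refine ⟨(finProdFinEquiv.symm i).1, Prod.ext h3 ?_⟩
      have h5 := (e (F (finProdFinEquiv.symm i).1).2 (finProdFinEquiv.symm i).2).2
      rw [h4] at h5
      apply sg_inj
      show sg (F (finProdFinEquiv.symm i).1).2 = sg c
      rcases prod_sg a with h6 | h6 <;> rw [h6] at h5 hc <;> linarith
  · intro F z
    exact viol_phi h e F z

end Pool.Agent.H21.MO
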